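import Pool.Agent.Helper34.FF.Goals3
import Pool.Agent.Helper34.FF.G1
import Pool.Agent.Helper1.FF2.Goals2

/-!
# Splitting a heavy bond (`StmtSplit`)
-/

namespace Pool.Agent.Helper29.FF

open Finset
open Pool.Agent.Helper34.FF
open scoped symmDiff Classical

theorem pf_StmtSplit (hShrink : Pool.Agent.Helper1.FF2.StmtShrink) (hMass : StmtMass) :
    StmtSplit := by
  intro V F _ _ T hT L e l T₁ X hR hX hXT hXl hM
  obtain ⟨-, hmass⟩ := hMass V F T hT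
  obtain ⟨mono, mVin, -, -, -, -⟩ := hmass L
  have h1 := hR.one
  let P : Finset F → Prop := fun Y => T.Bond Y ∧ Y ⊆ X ∧ T.len Y = l ∧ T.m L X ≤ 2 * T.m L Y
  have hex : ∃ n, ∃ Y, P Y ∧ Y.card = n :=
    ⟨_, X, ⟨hX, Subset.refl _, hXl, by omega⟩, rfl⟩
  obtain ⟨Y, hPY, hcard⟩ := Nat.find_spec hex
  have hmin : ∀ Y', P Y' → Y.card ≤ Y'.card := fun Y' h => by
    rw [hcard]; exact Nat.find_min' hex ⟨Y', h, rfl⟩
  obtain ⟨hYb, hYX, hYl, hYm⟩ := hPY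
  obtain ⟨c, hc⟩ := hR.r2 Y hYb (hYX.trans hXT) hYl (by omega)
  obtain ⟨-, -, hIso, -⟩ := (pIso V F T hT).1 Y l c hc
  have hpos : 0 < T.m L Y := by omega
  obtain ⟨u, hu⟩ := Finset.card_pos.1 (show 0 < (L ∩ T.Vin Y).card from hpos)
  rw [mem_inter] at hu
  have hout : e ≤ (T.Vin Yᶜ).card := by
    have h2 : T.m L T₁ᶜ ≤ T.m L Yᶜ :=
      mono _ _ (compl_subset_compl.2 (hYX.trans hXT))
    exact (hR.out.trans h2).trans (mVin _)
  obtain ⟨X', hX'Y, hne, hX'b, hX'l, hX'm⟩ :=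
    hShrink V F T hT L e l Y c u hR.bad hu.1 hIso hu.2 hout
  have hX'e : e ≤ T.m L X' := by omega
  have hX'l' : T.len X' = l :=
    le_antisymm hX'l (hR.r1 X' hX'b (hX'Y.trans (hYX.trans hXT)) hX'e)
  refine ⟨X', hX'b, hX'Y.trans hYX, hX'l', by omega, ?_⟩
  by_contra hcon
  have hP : P X' := ⟨hX'b, hX'Y.trans hYX, hX'l', by omega⟩
  have h3 := hmin X' hP
  have h4 := Finset.card_lt_card (Finset.ssubset_iff_subset_ne.2 ⟨hX'Y, hne⟩)
  omega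

end Pool.Agent.Helper29.FF
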